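import Pool.Agent.Helper13.TR.StC

/-!
Project TR, module A1D: the factor of a product with the plane is a 1-manifold.
-/

set_option autoImplicit false

namespace Pool.Agent.Helper64.TR

open Set Topology Pool.Agent.Helper13.TR

/-- the open subset of the product over `U` is the product with `U` -/
private lemma homeo_open (A : Type) [TopologicalSpace A] (U : Set A) :
    Nonempty (↥{p : ℝ × ℝ × A | p.2.2 ∈ U} ≃ₜ ℝ × ℝ × ↥U) := by
  refine ⟨{
    toFun := fun p => (p.1.1, p.1.2.1, ⟨p.1.2.2, p.2⟩)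
    invFun := fun q => ⟨(q.1, q.2.1, q.2.2.1), q.2.2.2⟩
    left_inv := fun p => rfl
    right_inv := fun q => rfl
    continuous_toFun := by fun_prop
    continuous_invFun := by fun_prop }⟩

/-- a path in the subspace `U` avoiding `t` is a path in `U ∖ {t}` -/
private lemma joined_up {A : Type} [TopologicalSpace A] {U : Set A} {t a b : ↥U}
    (h : JoinedIn ({t}ᶜ : Set ↥U) a b) : JoinedIn (U \ {(t : A)}) (a : A) (b : A) := by
  refine (h.map continuous_subtype_val).mono ?_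
  rintro _ ⟨x, hx, rfl⟩
  refine ⟨x.2, fun h' => hx ?_⟩
  exact Subtype.ext h'

theorem hA1D (hOPN : StOPN) (hHOM : StHOM) (hUPB : StUPB) (hLOB : StLOB) (hDBL : StDBL)
    (hORD : StORD) (hPSI : StPSI) (hMON : StMON) : StA1D := by
  intro A _ _ _ _ hHM hG1 hLH a
  obtain ⟨K, hK, hKa⟩ := exists_compact_mem_nhds a
  have hOo : IsOpen (interior K) := isOpen_interior
  have haO : a ∈ interior K := mem_interior_iff_mem_nhds.2 hKa
  obtain ⟨V, hVo, haV, hVO, hV⟩ := hLH a (interior K) hOo haO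
  have hUo : IsOpen (pathComponentIn V a) := hVo.pathComponentIn a
  have haU : a ∈ pathComponentIn V a := mem_pathComponentIn_self haV
  have hUV : pathComponentIn V a ⊆ V := pathComponentIn_subset
  have hUp : IsPathConnected (pathComponentIn V a) := isPathConnected_pathComponentIn haV
  refine ⟨pathComponentIn V a, hUo, haU, ?_⟩
  generalize pathComponentIn V a = U at hUo haU hUV hUp
  have : PathConnectedSpace ↥U := isPathConnected_iff_pathConnectedSpace.1 hUp
  have : LocallyPathConnectedSpace ↥U := hUo.locallyPathConnectedSpace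
  have : TopologicalSpace.SeparableSpace ↥U :=
    (hK.isSeparable.mono (hUV.trans (hVO.trans interior_subset))).separableSpace
  have hcyc : ∀ z ∈ cin U 1, bd 0 z = 0 → ∃ e : Ch A 2, bd 1 e = z := by
    intro z hz hbz
    obtain ⟨e, -, he⟩ := hV z ((hMON A).1 U V 1 hUV hz) hbz
    exact ⟨e, he⟩
  have hHMU : HM (ℝ × ℝ × ↥U) := by
    have ho : IsOpen {p : ℝ × ℝ × A | p.2.2 ∈ U} :=
      hUo.preimage (continuous_snd.comp continuous_snd)
    exact hHOM _ _ (homeo_open A U) (hOPN _ _ ho hHM)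
  have h1 := hUPB ↥U hHMU
  have h2 : ∀ t : ↥U, ∃ a b : ↥U, a ≠ t ∧ b ≠ t ∧ ¬ JoinedIn {t}ᶜ a b := by
    intro t
    obtain ⟨x, hx, y, hy, hxy⟩ := hLOB A U t hHM hUo t.2 hcyc
    refine ⟨⟨x, hx.1⟩, ⟨y, hy.1⟩, fun h => hx.2 (congrArg Subtype.val h),
      fun h => hy.2 (congrArg Subtype.val h), fun h => hxy (joined_up h)⟩
  have h3 : ∀ a b : ↥U, a ≠ b → ∃ τ, τ ≠ a ∧ τ ≠ b ∧ ¬ JoinedIn {τ}ᶜ a b := by
    intro x y hxy
    obtain ⟨τ, hτ, h4, h5, h6⟩ := hDBL A U hUo hUp hG1 hcyc x x.2 y y.2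
      (fun h => hxy (Subtype.ext h))
    exact ⟨⟨τ, hτ⟩, fun h => h4 (congrArg Subtype.val h), fun h => h5 (congrArg Subtype.val h),
      fun h => h6 (joined_up h)⟩
  obtain ⟨r, r1, r2, r3, r4, r5, r6⟩ := hORD ↥U h1 h2 h3
  exact hPSI ↥U r r1 r2 r3 r4 r5 r6

end Pool.Agent.Helper64.TR
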